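import Mathlib

/-!
R-trees on sets of axis-parallel boxes, and the cost of stabbing queries.
-/

namespace Pool.Agent.Lib.MP_a7848c_lc

/-- An axis-parallel box in `ℝ^d`, given by its two corners `lo ≤ hi`. -/
structure Box (d : ℕ) where
  lo : Fin d → ℝ
  hi : Fin d → ℝ
  lo_le_hi : ∀ i, lo i ≤ hi i

/-- The set of points of the box, the product of the intervals `[lo i, hi i]`. -/
def Box.pts {d : ℕ} (b : Box d) : Set (Fin d → ℝ) :=
  {x | ∀ i, b.lo i ≤ x i ∧ x i ≤ b.hi i}

/-- `Tree d h` is the type of rooted trees all of whose leaves are at depth `h` (the root being at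
depth `0`) and store a list of boxes: a tree of height `0` is a leaf, that is, the list of the
boxes it stores, and a tree of height `h + 1` is the list of its children, trees of height `h`. -/
def Tree (d : ℕ) : ℕ → Type
  | 0 => List (Box d)
  | h + 1 => List (Tree d h)

/-- The boxes stored in the leaves of a tree, listed with multiplicity. -/
def Tree.elems {d : ℕ} : (h : ℕ) → Tree d h → List (Box d)
  | 0, t => t
  | h + 1, t => List.flatMap (fun c : Tree d h => Tree.elems h c) t

/-- The minimal axis-parallel bounding box of the boxes in `L`: the set of points lying in every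
box that contains all the boxes of `L`. -/
def boundingBox {d : ℕ} (L : List (Box d)) : Set (Fin d → ℝ) :=
  {x | ∀ C : Box d, (∀ b ∈ L, b.pts ⊆ C.pts) → x ∈ C.pts}

/-- Every node of the tree, its root included, has at least `m` and at most `M` children
(stored boxes, if the node is a leaf). -/
def Tree.SizesBetween {d : ℕ} (m M : ℝ) : (h : ℕ) → Tree d h → Prop
  | 0, t => m ≤ (List.length t : ℝ) ∧ (List.length t : ℝ) ≤ M
  | h + 1, t => m ≤ (List.length t : ℝ) ∧ (List.length t : ℝ) ≤ M ∧
      ∀ c : Tree d h, c ∈ (show List (Tree d h) from t) → Tree.SizesBetween m M h c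

/-- The same condition, except that the root is exempt from the lower bound `m`. -/
def Tree.SizesBetweenExceptRoot {d : ℕ} (m M : ℝ) : (h : ℕ) → Tree d h → Prop
  | 0, t => (List.length t : ℝ) ≤ M
  | h + 1, t => (List.length t : ℝ) ≤ M ∧
      ∀ c : Tree d h, c ∈ (show List (Tree d h) from t) → Tree.SizesBetween m M h c

/-- `t` is an R-tree on the set `S` in which every node has at least `m` (the root excepted) and
at most `M` children, or stored boxes for a leaf: all leaves are at the same depth (by the type of
`t`) and every box of `S` is stored in exactly one leaf, exactly once, and nothing else is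
stored. -/
def IsRTree {d : ℕ} (m M : ℝ) (S : Finset (Box d)) (h : ℕ) (t : Tree d h) : Prop :=
  t.SizesBetweenExceptRoot m M h ∧ (Tree.elems h t : Multiset (Box d)) = S.val

open Classical in
/-- The cost of the stabbing query with the point `q`: the number of nodes visited by the
traversal that starts at the root and visits a child `c` of a visited node exactly when `q` lies
in the bounding box of the boxes stored below `c`. -/
noncomputable def Tree.visits {d : ℕ} (q : Fin d → ℝ) : (h : ℕ) → Tree d h → ℕ
  | 0, _ => 1
  | h + 1, t => 1 + (List.map (fun c : Tree d h =>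
      if q ∈ boundingBox (Tree.elems h c) then Tree.visits q h c else 0) t).sum

open Classical in
/-- The number `T` of boxes of `S` that contain the point `q`. -/
noncomputable def stabbed {d : ℕ} (S : Finset (Box d)) (q : Fin d → ℝ) : ℕ :=
  (S.filter (fun b => q ∈ b.pts)).card

end Pool.Agent.Lib.MP_a7848c_lc
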