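import Pool.Agent.Lib.MP_a7848c_lc.Defs

namespace Pool.Agent.Lib.MP_a7848c_lc

open Finset

theorem mem_boundingBox_of {d : ℕ} {L : List (Box d)} {x : Fin d → ℝ}
    (h : ∀ i, (∃ b ∈ L, b.lo i ≤ x i) ∧ (∃ b ∈ L, x i ≤ b.hi i)) : x ∈ boundingBox L := by
  intro C hC i
  obtain ⟨⟨b, hb, h1⟩, ⟨b', hb', h2⟩⟩ := h i
  have e1 : b.lo ∈ C.pts := hC b hb (fun j => ⟨le_refl _, b.lo_le_hi j⟩)
  have e2 : b'.hi ∈ C.pts := hC b' hb' (fun j => ⟨b'.lo_le_hi j, le_refl _⟩)
  exact ⟨(e1 i).1.trans h1, h2.trans (e2 i).2⟩

theorem boundingBox_mono {d : ℕ} {L L' : List (Box d)} (h : ∀ b ∈ L, b ∈ L') :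
    boundingBox L ⊆ boundingBox L' := by
  intro x hx C hC
  exact hx C (fun b hb => hC b (h b hb))

/-- The list of the leaves of a tree. -/
def leaves {d : ℕ} : (h : ℕ) → Tree d h → List (List (Box d))
  | 0, t => [t]
  | h + 1, t => List.flatMap (fun c : Tree d h => leaves h c) t

theorem flatten_leaves {d : ℕ} : ∀ (h : ℕ) (t : Tree d h),
    (leaves h t).flatten = Tree.elems h t
  | 0, t => by
    have key : ∀ l : List (Box d), [l].flatten = l := by simp
    exact key t
  | h + 1, t => by
    change (List.flatMap (fun c : Tree d h => leaves h c) (show List (Tree d h) from t)).flatten =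
      List.flatMap (fun c : Tree d h => Tree.elems h c) (show List (Tree d h) from t)
    induction (show List (Tree d h) from t) with
    | nil => simp
    | cons a l ih => simp [List.flatMap_cons, ih, flatten_leaves h a]

theorem mem_elems_of_leaf {d : ℕ} {h : ℕ} {t : Tree d h} {L : List (Box d)}
    (hL : L ∈ leaves h t) : ∀ b ∈ L, b ∈ Tree.elems h t := by
  intro b hb
  rw [← flatten_leaves]
  exact List.mem_flatten.2 ⟨L, hL, hb⟩

open Classical in
theorem countP_leaves_le_visits {d : ℕ} (q : Fin d → ℝ) : ∀ (h : ℕ) (t : Tree d h),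
    (leaves h t).countP (fun L => decide (q ∈ boundingBox L)) ≤ Tree.visits q h t
  | 0, t => by
    have key : ∀ l : List (Box d),
        [l].countP (fun L => decide (q ∈ boundingBox L)) ≤ 1 :=
      fun l => (List.countP_le_length).trans (by simp)
    exact key t
  | h + 1, t => by
    change (List.flatMap (fun c : Tree d h => leaves h c) (show List (Tree d h) from t)).countP
      (fun L => decide (q ∈ boundingBox L)) ≤
      1 + (List.map (fun c : Tree d h =>
      if q ∈ boundingBox (Tree.elems h c) then Tree.visits q h c else 0)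
        (show List (Tree d h) from t)).sum
    refine le_trans ?_ (Nat.le_add_left _ _)
    induction (show List (Tree d h) from t) with
    | nil => simp
    | cons a l ih =>
      simp only [List.flatMap_cons, List.countP_append, List.map_cons, List.sum_cons]
      refine Nat.add_le_add ?_ ih
      split_ifs with hq
      · exact countP_leaves_le_visits q h a
      · rw [Nat.le_zero, List.countP_eq_zero]
        intro L hL
        simp only [decide_eq_true_eq]
        intro hq'
        exact hq (boundingBox_mono (mem_elems_of_leaf hL) hq')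

theorem leaves_length {d : ℕ} {m M : ℝ} : ∀ (h : ℕ) (t : Tree d h),
    Tree.SizesBetween m M h t → ∀ L ∈ leaves h t, m ≤ (L.length : ℝ) ∧ (L.length : ℝ) ≤ M
  | 0, t, ht, L, hL => by
    change L ∈ ([(show List (Box d) from t)]) at hL
    rw [List.mem_singleton] at hL
    rw [hL]
    exact ht
  | h + 1, t, ht, L, hL => by
    obtain ⟨c, hc, hL⟩ := List.mem_flatMap.1 hL
    exact leaves_length h c (ht.2.2 c hc) L hL

theorem leaves_length_root {d : ℕ} {m M : ℝ} : ∀ (h : ℕ) (t : Tree d h),
    Tree.SizesBetweenExceptRoot m M h t →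
    (∀ L ∈ leaves h t, (L.length : ℝ) ≤ M) ∧
      ((leaves h t).length = 1 ∨ ∀ L ∈ leaves h t, m ≤ (L.length : ℝ))
  | 0, t, ht => by
    refine ⟨fun L hL => ?_, Or.inl ?_⟩
    · change L ∈ ([(show List (Box d) from t)]) at hL
      rw [List.mem_singleton] at hL
      rw [hL]
      exact ht
    · have key : ∀ l : List (Box d), [l].length = 1 := by simp
      exact key t
  | h + 1, t, ht => by
    have key : ∀ L ∈ leaves (h+1) t, m ≤ (L.length : ℝ) ∧ (L.length : ℝ) ≤ M := by
      intro L hL
      obtain ⟨c, hc, hL⟩ := List.mem_flatMap.1 hL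
      exact leaves_length h c (ht.2 c hc) L hL
    exact ⟨fun L hL => (key L hL).2, Or.inr fun L hL => (key L hL).1⟩

/-- `length * m ≤ sum` for lists of lists with lengths at least `m`. -/
theorem length_mul_le_flatten {α : Type*} (m : ℝ) (Ls : List (List α))
    (h : ∀ L ∈ Ls, m ≤ (L.length : ℝ)) :
    (Ls.length : ℝ) * m ≤ (Ls.flatten.length : ℝ) := by
  induction Ls with
  | nil => simp
  | cons a l ih =>
    have h1 := h a (by simp)
    have h2 := ih (fun L hL => h L (by simp [hL]))
    simp only [List.length_cons, List.flatten_cons, List.length_append]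
    push_cast
    nlinarith

/-! ### The boxes -/

/-- The cyclic successor on `Fin d`. -/
def nxt {d : ℕ} (j : Fin d) : Fin d := ⟨(j.1 + 1) % d, Nat.mod_lt _ j.pos⟩

/-- The cyclic predecessor on `Fin d`. -/
def prv {d : ℕ} (j : Fin d) : Fin d := ⟨(j.1 + (d - 1)) % d, Nat.mod_lt _ j.pos⟩

theorem prv_nxt {d : ℕ} (j : Fin d) : prv (nxt j) = j := by
  have hj := j.isLt
  apply Fin.ext
  simp only [prv, nxt]
  rcases Nat.lt_or_ge (j.1 + 1) d with h | h
  · rw [Nat.mod_eq_of_lt h, show j.1 + 1 + (d - 1) = j.1 + d by omega, Nat.add_mod_right,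
      Nat.mod_eq_of_lt hj]
  · have : j.1 + 1 = d := by omega
    rw [this, Nat.mod_self, Nat.zero_add, Nat.mod_eq_of_lt (by omega)]
    omega

theorem nxt_ne {d : ℕ} (hd : 2 ≤ d) (j : Fin d) : nxt j ≠ j := by
  intro h
  have hj := j.isLt
  have h' := congrArg Fin.val h
  simp only [nxt] at h'
  rcases Nat.lt_or_ge (j.1 + 1) d with h1 | h1
  · rw [Nat.mod_eq_of_lt h1] at h'
    omega
  · have : j.1 + 1 = d := by omega
    rw [this, Nat.mod_self] at h'
    omega

theorem eq_nxt_of_prv {d : ℕ} (i j : Fin d) (h : prv i = j) : i = nxt j := by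
  have hi := i.isLt
  have h' := congrArg Fin.val h
  apply Fin.ext
  simp only [prv, nxt] at h' ⊢
  rw [← h']
  rcases Nat.eq_zero_or_pos i.1 with h0 | h0
  · rw [h0, Nat.zero_add, Nat.mod_eq_of_lt (show d - 1 < d by omega),
      show d - 1 + 1 = d by omega, Nat.mod_self]
  · rw [show i.1 + (d-1) = (i.1 - 1) + d by omega, Nat.add_mod_right,
      Nat.mod_eq_of_lt (show i.1 - 1 < d by omega),
      show i.1 - 1 + 1 = i.1 by omega, Nat.mod_eq_of_lt hi]

/-- The box attached to a grid point `z ∈ {0, …, K-1}^d`. -/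
def gbox {d : ℕ} (K : ℕ) (z : Fin d → Fin K) : Box d where
  lo := fun i => -((K : ℝ) - (z (prv i) : ℕ))
  hi := fun i => (z i : ℕ) + 1
  lo_le_hi := fun i => by
    have : ((z (prv i) : ℕ) : ℝ) ≤ K := by exact_mod_cast (z (prv i)).isLt.le
    have h2 : (0 : ℝ) ≤ ((z i : ℕ) : ℝ) := Nat.cast_nonneg _
    linarith

theorem gbox_injective {d : ℕ} (K : ℕ) : Function.Injective (gbox (d := d) K) := by
  intro z z' h
  have h' := congrArg Box.hi h
  funext i
  have := congrFun h' i
  simp only [gbox, add_left_inj, Nat.cast_inj] at this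
  exact Fin.ext this

/-- The query point with coordinate `j` equal to `c + 3/2`, the next coordinate equal to
`-(K - c - 1/2)`, and zeros elsewhere: it separates `z j ≤ c` from `z j ≥ c + 1`. -/
noncomputable def qpt {d : ℕ} (K : ℕ) (j : Fin d) (c : ℕ) : Fin d → ℝ := fun i =>
  if i = j then (c : ℝ) + 3 / 2 else if i = nxt j then -((K : ℝ) - c - 1 / 2) else 0

theorem qpt_not_mem {d : ℕ} (hd : 2 ≤ d) (K : ℕ) (j : Fin d) (c : ℕ) (z : Fin d → Fin K) :
    qpt K j c ∉ (gbox K z).pts := by
  intro h
  have h1 := (h j).2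
  have h2 := (h (nxt j)).1
  simp only [qpt, if_true, gbox, if_neg (nxt_ne hd j), prv_nxt] at h1 h2
  have h3 : (c : ℝ) < (z j : ℕ) := by linarith
  have h4 : ((z j : ℕ) : ℝ) < (c : ℝ) + 1 := by linarith
  have h3' : c < (z j : ℕ) := by exact_mod_cast h3
  have h4' : (z j : ℕ) < c + 1 := by exact_mod_cast h4
  omega

theorem qpt_mem {d : ℕ} (K : ℕ) (j : Fin d) (c : ℕ) (hc : c + 1 < K)
    (L : List (Box d)) (z z' : Fin d → Fin K) (hz : gbox K z ∈ L) (hz' : gbox K z' ∈ L)
    (h1 : (z j : ℕ) ≤ c) (h2 : c < (z' j : ℕ)) : qpt K j c ∈ boundingBox L := by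
  have hcK : (c : ℝ) + 1 < K := by exact_mod_cast hc
  apply mem_boundingBox_of
  intro i
  by_cases hij : i = j
  · subst hij
    constructor
    · refine ⟨_, hz, ?_⟩
      simp only [qpt, if_true, gbox]
      have : ((z (prv i) : ℕ) : ℝ) ≤ K := by exact_mod_cast (z (prv i)).isLt.le
      have h0 : (0 : ℝ) ≤ c := Nat.cast_nonneg _
      linarith
    · refine ⟨_, hz', ?_⟩
      simp only [qpt, if_true, gbox]
      have : (c : ℝ) + 1 ≤ (z' i : ℕ) := by exact_mod_cast h2
      linarith
  · by_cases hin : i = nxt j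
    · subst hin
      constructor
      · refine ⟨_, hz, ?_⟩
        simp only [qpt, if_true, gbox, if_neg hij, prv_nxt]
        have : ((z j : ℕ) : ℝ) ≤ c := by exact_mod_cast h1
        linarith
      · refine ⟨_, hz, ?_⟩
        simp only [qpt, if_true, gbox, if_neg hij]
        have h0 : (0 : ℝ) ≤ ((z (nxt j) : ℕ) : ℝ) := Nat.cast_nonneg _
        linarith
    · constructor
      · refine ⟨_, hz, ?_⟩
        simp only [qpt, gbox, if_neg hij, if_neg hin]
        have : ((z (prv i) : ℕ) : ℝ) ≤ K := by exact_mod_cast (z (prv i)).isLt.le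
        linarith
      · refine ⟨_, hz, ?_⟩
        simp only [qpt, gbox, if_neg hij, if_neg hin]
        positivity

/-- A finite set `Z` of grid points has at most `(w + 1)^d` elements, where `w` is the number of
pairs `(j, c)` such that `Z` has points on both sides of `z j = c + 1/2`. -/
theorem card_le_pow {d : ℕ} (K : ℕ) (Z : Finset (Fin d → Fin K)) (hZ : Z.Nonempty) :
    Z.card ≤ (((Finset.univ ×ˢ Finset.range (K - 1) : Finset (Fin d × ℕ)).filter
      (fun p => (∃ z ∈ Z, (z p.1 : ℕ) ≤ p.2) ∧ (∃ z ∈ Z, p.2 < (z p.1 : ℕ)))).card + 1) ^ d := by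
  classical
  set P := (Finset.univ ×ˢ Finset.range (K - 1) : Finset (Fin d × ℕ)).filter
      (fun p => (∃ z ∈ Z, (z p.1 : ℕ) ≤ p.2) ∧ (∃ z ∈ Z, p.2 < (z p.1 : ℕ))) with hP
  have hne : ∀ j : Fin d, (Z.image (fun z => z j)).Nonempty := fun j => hZ.image _
  have hsub : Z ⊆ Fintype.piFinset (fun j : Fin d =>
      Finset.Icc ((Z.image (fun z => z j)).min' (hne j)) ((Z.image (fun z => z j)).max' (hne j))) := by
    intro z hz
    rw [Fintype.mem_piFinset]
    intro j
    rw [Finset.mem_Icc]
    exact ⟨Finset.min'_le _ _ (Finset.mem_image_of_mem (fun z => z j) hz),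
      Finset.le_max' _ _ (Finset.mem_image_of_mem (fun z => z j) hz)⟩
  refine (Finset.card_le_card hsub).trans ?_
  rw [Fintype.card_piFinset]
  calc ∏ j : Fin d, (Finset.Icc ((Z.image (fun z => z j)).min' (hne j))
          ((Z.image (fun z => z j)).max' (hne j))).card
      ≤ ∏ _j : Fin d, (P.card + 1) := by
        apply Finset.prod_le_prod
        · intro j _; exact Nat.zero_le _
        intro j _
        set mn := (Z.image (fun z => z j)).min' (hne j) with hmn
        set mx := (Z.image (fun z => z j)).max' (hne j) with hmx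
        rw [Fin.card_Icc]
        have hle : (Finset.Ico (mn : ℕ) (mx : ℕ)).card ≤ P.card := by
          apply Finset.card_le_card_of_injOn (fun c => (j, c))
          · intro c hc
            have hc' := Finset.mem_Ico.1 (Finset.mem_coe.1 hc)
            have hmxK := mx.isLt
            rw [Finset.mem_coe, hP, Finset.mem_filter]
            refine ⟨?_, ?_, ?_⟩
            · simp only [Finset.mem_product, Finset.mem_univ, true_and, Finset.mem_range]
              omega
            · obtain ⟨z, hz, hzj⟩ := Finset.mem_image.1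
                ((Z.image (fun z => z j)).min'_mem (hne j))
              refine ⟨z, hz, ?_⟩
              have : (z j : ℕ) = (mn : ℕ) := by rw [hmn]; exact congrArg Fin.val hzj
              simp only
              omega
            · obtain ⟨z, hz, hzj⟩ := Finset.mem_image.1
                ((Z.image (fun z => z j)).max'_mem (hne j))
              refine ⟨z, hz, ?_⟩
              have : (z j : ℕ) = (mx : ℕ) := by rw [hmx]; exact congrArg Fin.val hzj
              simp only
              omega
          · intro a _ b _ hab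
            exact (Prod.mk.inj hab).2
        rw [Nat.card_Ico] at hle
        omega
    _ = (P.card + 1) ^ d := by simp

end Pool.Agent.Lib.MP_a7848c_lc
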