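import Pool.Agent.Lib.MP_a7848c_lc.Lower

namespace Pool.Agent.Lib.MP_a7848c_lc

open Finset

theorem one_le_visits {d : ℕ} (q : Fin d → ℝ) : ∀ (h : ℕ) (t : Tree d h), 1 ≤ Tree.visits q h t
  | 0, _ => le_refl _
  | _ + 1, _ => Nat.le_add_right _ _

open Classical in
/-- The pairs `(j, c)` separated by a list of boxes. -/
noncomputable def sepPairs {d : ℕ} (K : ℕ) (L : List (Box d)) : Finset (Fin d × ℕ) :=
  (Finset.univ ×ˢ Finset.range (K - 1) : Finset (Fin d × ℕ)).filter
      (fun p => qpt K p.1 p.2 ∈ boundingBox L)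

theorem length_le_sep {d : ℕ} (K : ℕ) (L : List (Box d)) (hnd : L.Nodup)
    (hL : ∀ b ∈ L, ∃ z : Fin d → Fin K, gbox K z = b) :
    L.length ≤ ((sepPairs K L).card + 1) ^ d := by
  classical
  rcases L.eq_nil_or_concat with h0 | ⟨L', b, hb⟩
  · subst h0; simp
  · set Z : Finset (Fin d → Fin K) := Finset.univ.filter (fun z => gbox K z ∈ L) with hZ
    have hcard : L.length = Z.card := by
      have h1 : Z.map ⟨gbox K, gbox_injective K⟩ = L.toFinset := by
        ext b
        simp only [Finset.mem_map, hZ, Finset.mem_filter, Finset.mem_univ, true_and,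
          Function.Embedding.coeFn_mk, List.mem_toFinset]
        constructor
        · rintro ⟨z, hz, rfl⟩; exact hz
        · intro hb
          obtain ⟨z, rfl⟩ := hL b hb
          exact ⟨z, hb, rfl⟩
      rw [← Finset.card_map ⟨gbox K, gbox_injective K⟩, h1, List.toFinset_card_of_nodup hnd]
    have hne : Z.Nonempty := by
      rw [← Finset.card_pos, ← hcard, hb]
      simp
    rw [hcard]
    refine (card_le_pow K Z hne).trans ?_
    apply Nat.pow_le_pow_left
    apply Nat.add_le_add_right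
    apply Finset.card_le_card
    intro p hp
    rw [Finset.mem_filter] at hp
    obtain ⟨hp0, ⟨z, hz, hz1⟩, ⟨z', hz', hz1'⟩⟩ := hp
    rw [sepPairs, Finset.mem_filter]
    refine ⟨hp0, ?_⟩
    simp only [Finset.mem_product, Finset.mem_univ, true_and, Finset.mem_range] at hp0
    have hz2 := (Finset.mem_filter.1 hz).2
    have hz2' := (Finset.mem_filter.1 hz').2
    exact qpt_mem K p.1 p.2 (by omega) L z z' hz2 hz2' hz1 hz1'

open Classical in
theorem sum_countP {d : ℕ} (K : ℕ) (Ls : List (List (Box d))) :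
    ∑ p ∈ (Finset.univ ×ˢ Finset.range (K - 1) : Finset (Fin d × ℕ)),
      Ls.countP (fun L => decide (qpt K p.1 p.2 ∈ boundingBox L)) =
      (Ls.map (fun L => (sepPairs K L).card)).sum := by
  induction Ls with
  | nil => simp
  | cons a l ih =>
    simp only [List.countP_cons, List.map_cons, List.sum_cons, Finset.sum_add_distrib, ih]
    rw [add_comm]
    congr 1
    rw [sepPairs, Finset.card_filter]
    apply Finset.sum_congr rfl
    intro p _
    simp

theorem sum_visits_ge {d : ℕ} (hd : 2 ≤ d) (K : ℕ) (S : Finset (Box d))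
    (hS : ∀ b ∈ S, ∃ z : Fin d → Fin K, gbox K z = b) (m M : ℝ) (hm : 0 < m)
    (h : ℕ) (t : Tree d h) (ht : IsRTree m M S h t) :
    (S.card : ℝ) * M ^ ((1 : ℝ) / d - 1) - ((S.card : ℝ) / m + 1) ≤
      ((∑ p ∈ (Finset.univ ×ˢ Finset.range (K - 1) : Finset (Fin d × ℕ)),
        Tree.visits (qpt K p.1 p.2) h t : ℕ) : ℝ) := by
  classical
  have hd0 : (0 : ℝ) < d := by exact_mod_cast (by omega : 0 < d)
  obtain ⟨hsz, hel⟩ := ht
  have hnodup : (Tree.elems h t).Nodup := by
    have := S.nodup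
    rw [← hel] at this
    exact this
  have hmem : ∀ b ∈ Tree.elems h t, b ∈ S := by
    intro b hb
    have : b ∈ S.val := by rw [← hel]; exact hb
    exact this
  have hlen : (Tree.elems h t).length = S.card := by
    rw [Finset.card_def, ← hel]; rfl
  obtain ⟨hub, hlb⟩ := leaves_length_root h t hsz
  set Ls := leaves h t with hLs
  have hLsnodup : ∀ L ∈ Ls, L.Nodup := by
    intro L hL
    rw [← flatten_leaves, ← hLs] at hnodup
    exact (List.nodup_flatten.1 hnodup).1 L hL
  have hLsmem : ∀ L ∈ Ls, ∀ b ∈ L, ∃ z : Fin d → Fin K, gbox K z = b := by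
    intro L hL b hb
    exact hS b (hmem b (mem_elems_of_leaf hL b hb))
  -- number of leaves
  have hcount : (Ls.length : ℝ) ≤ (S.card : ℝ) / m + 1 := by
    rcases hlb with h1 | h1
    · rw [h1]
      have : (0 : ℝ) ≤ (S.card : ℝ) / m := by positivity
      simpa using this
    · have h2 := length_mul_le_flatten m Ls h1
      rw [hLs, flatten_leaves, hlen, ← hLs] at h2
      rw [← le_div_iff₀ hm] at h2
      linarith
  have hkey : ∀ Ls' : List (List (Box d)), (∀ L ∈ Ls', (L.length : ℝ) ≤ M ∧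
      L.length ≤ ((sepPairs K L).card + 1) ^ d) →
      (Ls'.flatten.length : ℝ) * M ^ ((1 : ℝ) / d - 1) - Ls'.length ≤
        (((Ls'.map (fun L => (sepPairs K L).card)).sum : ℕ) : ℝ) := by
    intro Ls'
    induction Ls' with
    | nil => intro _; simp
    | cons a l ih =>
      intro hl
      have ih' := ih (fun L hL => hl L (by simp [hL]))
      obtain ⟨ha1, ha2⟩ := hl a (by simp)
      simp only [List.flatten_cons, List.length_append, List.length_cons, List.map_cons,
        List.sum_cons]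
      generalize (List.map (fun L => (sepPairs K L).card) l).sum = s at ih' ⊢
      push_cast
      have : (a.length : ℝ) * M ^ ((1 : ℝ) / d - 1) ≤ ((sepPairs K a).card : ℝ) + 1 := by
        rcases Nat.eq_zero_or_pos a.length with h0 | h0
        · rw [h0]; push_cast; rw [zero_mul]; positivity
        · have h0' : (0 : ℝ) < a.length := by exact_mod_cast h0
          have e1 : (a.length : ℝ) * M ^ ((1 : ℝ) / d - 1) ≤ (a.length : ℝ) ^ ((1 : ℝ) / d) := by
            have e2 : M ^ ((1 : ℝ) / d - 1) ≤ (a.length : ℝ) ^ ((1 : ℝ) / d - 1) := by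
              apply Real.rpow_le_rpow_of_nonpos h0' ha1
              have : (1 : ℝ) / d ≤ 1 := by
                rw [div_le_one hd0]; exact_mod_cast (by omega : 1 ≤ d)
              linarith
            calc (a.length : ℝ) * M ^ ((1 : ℝ) / d - 1)
                ≤ (a.length : ℝ) * (a.length : ℝ) ^ ((1 : ℝ) / d - 1) := by
                  exact mul_le_mul_of_nonneg_left e2 h0'.le
              _ = (a.length : ℝ) ^ ((1 : ℝ) / d) := by
                  rw [Real.rpow_sub_one h0'.ne']; field_simp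
          refine e1.trans ?_
          have e3 : (a.length : ℝ) ≤ (((sepPairs K a).card : ℝ) + 1) ^ d := by
            exact_mod_cast ha2
          calc (a.length : ℝ) ^ ((1 : ℝ) / d)
              ≤ ((((sepPairs K a).card : ℝ) + 1) ^ d) ^ ((1 : ℝ) / d) := by
                apply Real.rpow_le_rpow h0'.le e3 (by positivity)
            _ = ((sepPairs K a).card : ℝ) + 1 := by
                rw [← Real.rpow_natCast, ← Real.rpow_mul (by positivity)]
                rw [mul_one_div_cancel hd0.ne', Real.rpow_one]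
      have hexp : ((a.length : ℝ) + l.flatten.length) * M ^ ((1 : ℝ) / d - 1) =
        (a.length : ℝ) * M ^ ((1 : ℝ) / d - 1) + (l.flatten.length : ℝ) * M ^ ((1 : ℝ) / d - 1) := by
        ring
      linarith
  have h3 := hkey Ls (fun L hL => ⟨hub L hL, length_le_sep K L (hLsnodup L hL) (hLsmem L hL)⟩)
  rw [hLs, flatten_leaves, hlen, ← hLs] at h3
  rw [← sum_countP] at h3
  have h4 : ∑ p ∈ (Finset.univ ×ˢ Finset.range (K - 1) : Finset (Fin d × ℕ)),
      Ls.countP (fun L => decide (qpt K p.1 p.2 ∈ boundingBox L)) ≤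
      ∑ p ∈ (Finset.univ ×ˢ Finset.range (K - 1) : Finset (Fin d × ℕ)),
        Tree.visits (qpt K p.1 p.2) h t := by
    apply Finset.sum_le_sum
    intro p _
    exact countP_leaves_le_visits _ h t
  have h5 : ((∑ p ∈ (Finset.univ ×ˢ Finset.range (K - 1) : Finset (Fin d × ℕ)),
      Ls.countP (fun L => decide (qpt K p.1 p.2 ∈ boundingBox L)) : ℕ) : ℝ) ≤
      ((∑ p ∈ (Finset.univ ×ˢ Finset.range (K - 1) : Finset (Fin d × ℕ)),
        Tree.visits (qpt K p.1 p.2) h t : ℕ) : ℝ) := by exact_mod_cast h4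
  linarith

/-- **Lower bound.** -/
theorem lower_bound (d : ℕ) (hd : 2 ≤ d) (α β : ℝ) (hα : 0 < α) (hβ : 0 < β) :
    ∃ c : ℝ, 0 < c ∧ ∃ B₀ : ℕ, ∀ B : ℕ, B₀ ≤ B → ∀ N : ℕ, 1 ≤ N →
      ∃ S : Finset (Box d), S.card = N ∧
        ∀ (h : ℕ) (t : Tree d h), IsRTree (α * B) (β * B) S h t →
          ∃ q : Fin d → ℝ, stabbed S q = 0 ∧
            c * ((N : ℝ) / B) ^ (1 - 1 / (d : ℝ)) ≤ (Tree.visits q h t : ℝ) := by
  classical
  have hd0 : (0 : ℝ) < d := by exact_mod_cast (by omega : 0 < d)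
  have hd1 : (1 : ℝ) / d ≤ 1 := by
    rw [div_le_one hd0]; exact_mod_cast (by omega : 1 ≤ d)
  set e : ℝ := 1 / (d : ℝ) with he
  have he0 : 0 < e := by positivity
  set X : ℝ := (2 * (1 / α + 1) * β ^ (1 - e)) ^ (d : ℝ) with hX
  refine ⟨min 1 (β ^ (e - 1) / (4 * d)), by positivity, max 2 ⌈X⌉₊, ?_⟩
  intro B hB N hN
  have hB2 : 2 ≤ B := le_trans (le_max_left _ _) hB
  have hBX : X ≤ B := (Nat.le_ceil X).trans (by exact_mod_cast (le_trans (le_max_right _ _) hB))
  have hB0 : (0 : ℝ) < B := by exact_mod_cast (by omega : 0 < B)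
  have hN0 : (0 : ℝ) < N := by exact_mod_cast (by omega : 0 < N)
  -- the side length of the grid
  have hex : ∃ K : ℕ, N ≤ K ^ d := ⟨N, Nat.le_self_pow (by omega) N⟩
  set K := Nat.find hex with hK
  have hK1 : N ≤ K ^ d := Nat.find_spec hex
  have hKpos : 0 < K := by
    rcases Nat.eq_zero_or_pos K with h0 | h0
    · rw [h0, Nat.zero_pow (by omega)] at hK1; omega
    · exact h0
  have hK2 : (K - 1) ^ d < N := by
    have := Nat.find_min hex (m := K - 1) (by omega)
    omega
  have hKr : ((K - 1 : ℕ) : ℝ) ≤ (N : ℝ) ^ e := by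
    have h1 : (((K - 1 : ℕ) : ℝ)) ^ (d : ℝ) ≤ N := by
      rw [Real.rpow_natCast]; exact_mod_cast hK2.le
    calc ((K - 1 : ℕ) : ℝ) = (((K - 1 : ℕ) : ℝ) ^ (d : ℝ)) ^ e := by
          rw [← Real.rpow_mul (Nat.cast_nonneg _), he, mul_one_div_cancel hd0.ne', Real.rpow_one]
      _ ≤ (N : ℝ) ^ e := Real.rpow_le_rpow (by positivity) h1 he0.le
  obtain ⟨Z, -, hZc⟩ := Finset.exists_subset_card_eq
    (s := (Finset.univ : Finset (Fin d → Fin K))) (n := N) (by simpa using hK1)
  refine ⟨Z.map ⟨gbox K, gbox_injective K⟩, by rw [Finset.card_map, hZc], ?_⟩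
  set S := Z.map ⟨gbox K, gbox_injective K⟩ with hS
  have hSc : S.card = N := by rw [Finset.card_map, hZc]
  have hSz : ∀ b ∈ S, ∃ z : Fin d → Fin K, gbox K z = b := by
    intro b hb
    obtain ⟨z, -, hz⟩ := Finset.mem_map.1 hb
    exact ⟨z, hz⟩
  have hstab : ∀ (j : Fin d) (c : ℕ), stabbed S (qpt K j c) = 0 := by
    intro j c
    rw [stabbed, Finset.card_eq_zero, Finset.filter_eq_empty_iff]
    intro b hb
    obtain ⟨z, rfl⟩ := hSz b hb
    exact qpt_not_mem hd K j c z
  intro h t ht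
  rcases le_or_gt N B with hNB | hNB
  · refine ⟨qpt K ⟨0, by omega⟩ 0, hstab _ _, ?_⟩
    have h1 : ((N : ℝ) / B) ^ (1 - e) ≤ 1 := by
      apply Real.rpow_le_one (by positivity)
      · rw [div_le_one hB0]; exact_mod_cast hNB
      · linarith
    have h2 : (1 : ℝ) ≤ (Tree.visits (qpt K ⟨0, by omega⟩ 0) h t : ℝ) := by
      exact_mod_cast one_le_visits _ h t
    refine le_trans ?_ h2
    calc min 1 (β ^ (e - 1) / (4 * d)) * ((N : ℝ) / B) ^ (1 - e)
        ≤ 1 * 1 := by
          apply mul_le_mul (min_le_left _ _) h1 (by positivity) (by norm_num)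
      _ = 1 := by norm_num
  · by_contra hcon
    push Not at hcon
    set Y : ℝ := min 1 (β ^ (e - 1) / (4 * d)) * ((N : ℝ) / B) ^ (1 - e) with hY
    have hNBr : (B : ℝ) ≤ N := by exact_mod_cast hNB.le
    have hY0 : 0 ≤ Y := by positivity
    have hsum := sum_visits_ge hd K S hSz (α * B) (β * B) (by positivity) h t ht
    have hub : ((∑ p ∈ (Finset.univ ×ˢ Finset.range (K - 1) : Finset (Fin d × ℕ)),
        Tree.visits (qpt K p.1 p.2) h t : ℕ) : ℝ) ≤ (d : ℝ) * (N : ℝ) ^ e * Y := by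
      push_cast
      calc ∑ p ∈ (Finset.univ ×ˢ Finset.range (K - 1) : Finset (Fin d × ℕ)),
            (Tree.visits (qpt K p.1 p.2) h t : ℝ)
          ≤ ∑ p ∈ (Finset.univ ×ˢ Finset.range (K - 1) : Finset (Fin d × ℕ)), Y := by
            apply Finset.sum_le_sum
            intro p _
            exact (hcon _ (hstab p.1 p.2)).le
        _ = (d : ℝ) * ((K - 1 : ℕ) : ℝ) * Y := by
            rw [Finset.sum_const, nsmul_eq_mul, Finset.card_product]
            simp
        _ ≤ (d : ℝ) * (N : ℝ) ^ e * Y := by gcongr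
    rw [hSc] at hsum
    -- main inequality
    have hBe : 2 * (1 / α + 1) * β ^ (1 - e) ≤ (B : ℝ) ^ e := by
      calc 2 * (1 / α + 1) * β ^ (1 - e) = X ^ e := by
            rw [hX, ← Real.rpow_mul (by positivity), he, mul_one_div_cancel hd0.ne',
              Real.rpow_one]
        _ ≤ (B : ℝ) ^ e := Real.rpow_le_rpow (by positivity) hBX he0.le
    have hMe : (β * (B : ℝ)) ^ (e - 1) = β ^ (e - 1) * (B : ℝ) ^ (e - 1) :=
      Real.mul_rpow hβ.le hB0.le
    have hββ : β ^ (1 - e) * β ^ (e - 1) = 1 := by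
      rw [← Real.rpow_add hβ]; simp
    have hBB : (B : ℝ) ^ e / B = (B : ℝ) ^ (e - 1) := by
      rw [Real.rpow_sub_one hB0.ne']
    have hfew : (N : ℝ) / (α * B) + 1 ≤ (1 / 2) * ((N : ℝ) * (β * (B : ℝ)) ^ (e - 1)) := by
      have h1 : (N : ℝ) / (α * B) + 1 ≤ (1 / α + 1) * (N / B) := by
        have : (1 : ℝ) ≤ N / B := by rw [le_div_iff₀ hB0]; linarith
        have h2 : (N : ℝ) / (α * B) = 1 / α * (N / B) := by field_simp
        rw [h2]; linarith
      refine h1.trans ?_
      rw [hMe, ← hBB]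
      have h3 : (1 / α + 1) ≤ (1 / 2) * (β ^ (e - 1) * (B : ℝ) ^ e) := by
        have h4 : β ^ (e - 1) * (2 * (1 / α + 1) * β ^ (1 - e)) ≤ β ^ (e - 1) * (B : ℝ) ^ e :=
          mul_le_mul_of_nonneg_left hBe (by positivity)
        have h5 : β ^ (e - 1) * (2 * (1 / α + 1) * β ^ (1 - e)) = 2 * (1 / α + 1) := by
          calc β ^ (e - 1) * (2 * (1 / α + 1) * β ^ (1 - e))
              = 2 * (1 / α + 1) * (β ^ (1 - e) * β ^ (e - 1)) := by ring
            _ = 2 * (1 / α + 1) := by rw [hββ, mul_one]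
        linarith
      calc (1 / α + 1) * ((N : ℝ) / B)
          ≤ (1 / 2) * (β ^ (e - 1) * (B : ℝ) ^ e) * (N / B) :=
            mul_le_mul_of_nonneg_right h3 (by positivity)
        _ = (1 / 2) * ((N : ℝ) * (β ^ (e - 1) * ((B : ℝ) ^ e / B))) := by ring
    have hlow : (1 / 2) * ((N : ℝ) * (β * (B : ℝ)) ^ (e - 1)) ≤ (d : ℝ) * (N : ℝ) ^ e * Y := by
      linarith
    have hYle : (d : ℝ) * (N : ℝ) ^ e * Y ≤
        (1 / 4) * ((N : ℝ) * (β * (B : ℝ)) ^ (e - 1)) := by
      have h1 : Y ≤ (β ^ (e - 1) / (4 * d)) * ((N : ℝ) / B) ^ (1 - e) := by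
        rw [hY]
        exact mul_le_mul_of_nonneg_right (min_le_right _ _) (by positivity)
      have h2 : ((N : ℝ) / B) ^ (1 - e) = (N : ℝ) ^ (1 - e) * (B : ℝ) ^ (e - 1) := by
        rw [Real.div_rpow hN0.le hB0.le, div_eq_mul_inv, ← Real.rpow_neg hB0.le]
        congr 2; ring
      have h3 : (N : ℝ) ^ e * (N : ℝ) ^ (1 - e) = N := by
        rw [← Real.rpow_add hN0]; simp
      calc (d : ℝ) * (N : ℝ) ^ e * Y
          ≤ (d : ℝ) * (N : ℝ) ^ e * ((β ^ (e - 1) / (4 * d)) * ((N : ℝ) / B) ^ (1 - e)) := by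
            gcongr
        _ = (1 / 4) * (((N : ℝ) ^ e * (N : ℝ) ^ (1 - e)) * (β ^ (e - 1) * (B : ℝ) ^ (e - 1))) := by
            rw [h2]; field_simp
        _ = (1 / 4) * ((N : ℝ) * (β * (B : ℝ)) ^ (e - 1)) := by rw [h3, hMe]
    have hpos : 0 < (N : ℝ) * (β * (B : ℝ)) ^ (e - 1) := by positivity
    linarith

end Pool.Agent.Lib.MP_a7848c_lc
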